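import Pool.Agent.Helper13.RG.Stmts

/-!
Module COE: congruent Kummer classes give congruent values.
-/

set_option autoImplicit false

open scoped Classical

namespace Pool.Agent.Helper13.RG

open Pool.Agent.Helper14.BSC Pool.Agent.Helper13.ZL

theorem coe_norm_one {L : Type*} [NormedField L] [IsUltrametricDist L] {z : L} (h : ‖z - 1‖ < 1) :
    ‖z‖ = 1 := by
  have h1 : ‖z - 1 + 1‖ = max ‖z - 1‖ ‖(1 : L)‖ :=
    IsUltrametricDist.norm_add_eq_max_of_norm_ne_norm (by rw [norm_one]; exact h.ne)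
  rw [sub_add_cancel, norm_one, max_eq_right h.le] at h1
  exact h1

/-- the ultrametric part -/
theorem coe_ultra {L : Type*} [NormedField L] [IsUltrametricDist L] {X Y B B' w w' : L} {N : ℕ}
    (hN : 0 < N) (hX : ‖X‖ = 1) (hY : ‖Y‖ = 1) (hw : w ≠ 0) (hw' : w' ≠ 0) (hB : B = X * w ^ N)
    (hB' : B' = Y * w' ^ N) (hBB : ‖B / B' - 1‖ < 1)
    (hu : ‖w / w'‖ = 1 → ‖(w / w') ^ N - 1‖ < 1) : ‖X - Y‖ < 1 := by
  have hX0 : X ≠ 0 := by
    rintro rfl
    simp at hX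
  have hY0 : Y ≠ 0 := by
    rintro rfl
    simp at hY
  have hz : B / B' = X / Y * (w / w') ^ N := by
    rw [hB, hB', div_pow]
    field_simp
  have hzn := coe_norm_one hBB
  have hun : ‖w / w'‖ = 1 := by
    have h1 : ‖w / w'‖ ^ N = 1 := by
      rw [hz, norm_mul, norm_div, hX, hY, norm_pow, div_one, one_mul] at hzn
      exact hzn
    exact (pow_eq_one_iff_of_nonneg (norm_nonneg _) hN.ne').1 h1
  have h2 := hu hun
  set u := (w / w') ^ N with hudef
  have hu0 : u ≠ 0 := pow_ne_zero _ (div_ne_zero hw hw')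
  have hu1 : ‖u‖ = 1 := by rw [hudef, norm_pow, hun, one_pow]
  have h3 : X - Y = Y * ((B / B' - 1) - (u - 1)) / u := by
    rw [hz]
    field_simp
    ring
  rw [h3, norm_div, norm_mul, hY, hu1, one_mul, div_one]
  refine lt_of_le_of_lt ?_ (max_lt hBB h2)
  have h4 := IsUltrametricDist.norm_add_le_max (B / B' - 1) (-(u - 1))
  rwa [norm_neg, ← sub_eq_add_neg] at h4

theorem st_COE (hclo : ST_CLO) (hefin : ST_EFIN) (hpl : Pool.Agent.Helper22.TW.ST_PL) : ST_COE := by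
  intro k Ω _ _ _ _ _ D D' v p _ σ P P' hv x y hx hy hce
  obtain ⟨E₀, hE, hσE, -⟩ := hclo k p σ
  obtain ⟨e, N, -, hN, hEF⟩ := hefin p E₀ hE
  obtain ⟨b, b', g, g', hxb, hyb, hnear⟩ := hce N hN
  have hx0 : P.φ x ≠ 0 := by
    intro h
    rw [h, norm_zero] at hx
    exact zero_ne_one hx
  have hy0 : P'.φ y ≠ 0 := by
    intro h
    rw [h, norm_zero] at hy
    exact zero_ne_one hy
  obtain ⟨w, hwE, hw0, hw⟩ := (hpl k Ω D p σ E₀ hE hσE P).2 x hx0 N hN b g hxb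
  obtain ⟨w', hwE', hw0', hw'⟩ := (hpl k Ω D' p σ E₀ hE hσE P').2 y hy0 N hN b' g' hyb
  have h1 : ‖σ b / σ b' - 1‖ < 1 := by
    have h2 := (hv (b / b' - 1)).1 hnear
    rwa [map_sub, map_div₀, map_one] at h2
  refine coe_ultra hN hx hy hw0 hw0' hw hw' h1 ?_
  intro hn
  exact (hEF (w / w') (div_mem hwE hwE') (div_ne_zero hw0 hw0')).2 hn

end Pool.Agent.Helper13.RG
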